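import Pool.Agent.BEL.StmtsP

/-!
# Squad BEL, row LWL: many eigenvalues
-/

namespace Pool.Agent.BEL.H41

open Set Filter Topology MeasureTheory
open scoped InnerProductSpace ENNReal
open Pool.Agent.BE01

noncomputable section

theorem grad_cont' {d : ℕ} {Ω : Set (En d)} {ψ : En d → ℝ} (h : Tst Ω ψ) :
    Continuous (gradient ψ) := by
  have h1 : Continuous (fderiv ℝ ψ) := h.1.continuous_fderiv (by norm_num)
  exact (LinearIsometryEquiv.continuous _).comp h1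

theorem grad_memLp' {d : ℕ} {Ω : Set (En d)} {ψ : En d → ℝ} (h : Tst Ω ψ) :
    MemLp (gradient ψ) 2 (mu Ω) := by
  have h2 : HasCompactSupport (gradient ψ) := by
    have h3 : HasCompactSupport (fderiv ℝ ψ) := h.2.1.fderiv ℝ
    exact h3.comp_left (map_zero _)
  exact ((grad_cont' h).memLp_of_hasCompactSupport h2).restrict Ω

/-- the square of the norm of a combination of orthogonal vectors -/
theorem norm_sq_comb {H : Type} [NormedAddCommGroup H] [InnerProductSpace ℝ H] {m : ℕ}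
    (x : Fin m → H) (hx : ∀ i j, i ≠ j → ⟪x i, x j⟫_ℝ = 0) (a : Fin m → ℝ) :
    ‖∑ i, a i • x i‖ ^ 2 = ∑ i, a i ^ 2 * ‖x i‖ ^ 2 := by
  rw [← real_inner_self_eq_norm_sq, sum_inner]
  refine Finset.sum_congr rfl fun i _ => ?_
  rw [inner_sum, Finset.sum_eq_single i]
  · rw [inner_smul_left, inner_smul_right, real_inner_self_eq_norm_sq]
    simp only [conj_trivial]
    ring
  · intro j _ hj
    rw [inner_smul_left, inner_smul_right, hx i j hj.symm, mul_zero, mul_zero]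
  · intro h
    exact absurd (Finset.mem_univ i) h

theorem lwl (hBmp : BmpStmt) : LwlStmt := by
  intro d Ω ι b e om hd hΩ hι hS
  obtain ⟨C, hC, hB⟩ := hBmp d Ω hd hΩ
  refine ⟨Real.sqrt C, Real.sqrt_pos.2 hC, ?_⟩
  intro n
  obtain ⟨ψ, hψ, hd1, hd2, hp, hg⟩ := hB (n + 1) (Nat.succ_pos n)
  -- the gradients
  have hG : ∀ i, ∃ G : VV Ω, (G : Lp (En d) 2 (mu Ω)) =ᵐ[mu Ω] gradient (ψ i) := by
    intro i
    have h1 := (grad_memLp' (hψ i)).coeFn_toLp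
    refine ⟨⟨(grad_memLp' (hψ i)).toLp _, ?_⟩, h1⟩
    exact Submodule.le_topologicalClosure _ (Submodule.subset_span ⟨ψ i, hψ i, h1⟩)
  choose G hGe using hG
  have hιG : ∀ i, ι (G i) =ᵐ[mu Ω] ψ i := fun i => hι (ψ i) (hψ i) (G i) (hGe i)
  -- inner products
  have in1 : ∀ i j, ⟪ι (G i), ι (G j)⟫_ℝ = ∫ x, ψ i x * ψ j x ∂(mu Ω) := by
    intro i j
    rw [L2.inner_def]
    refine integral_congr_ae ?_
    filter_upwards [hιG i, hιG j] with x h1 h2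
    rw [h1, h2]
    exact mul_comm _ _
  have in2 : ∀ i j, ⟪G i, G j⟫_ℝ = ∫ x, ⟪gradient (ψ i) x, gradient (ψ j) x⟫_ℝ ∂(mu Ω) := by
    intro i j
    rw [Submodule.coe_inner, L2.inner_def]
    refine integral_congr_ae ?_
    filter_upwards [hGe i, hGe j] with x h1 h2
    rw [h1, h2]
  have o1 : ∀ i j, i ≠ j → ⟪ι (G i), ι (G j)⟫_ℝ = 0 := by
    intro i j hij
    rw [in1]
    simp only [hd1 i j hij, integral_zero]
  have o2 : ∀ i j, i ≠ j → ⟪G i, G j⟫_ℝ = 0 := by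
    intro i j hij
    rw [in2]
    simp only [hd2 i j hij, integral_zero]
  have n1 : ∀ i, ‖ι (G i)‖ ^ 2 = ∫ x, ψ i x ^ 2 ∂(mu Ω) := by
    intro i
    rw [← real_inner_self_eq_norm_sq, in1]
    congr 1
    funext x
    ring
  have n2 : ∀ i, ‖G i‖ ^ 2 = ∫ x, ‖gradient (ψ i) x‖ ^ 2 ∂(mu Ω) := by
    intro i
    rw [← real_inner_self_eq_norm_sq, in2]
    simp only [real_inner_self_eq_norm_sq]
  -- the combination
  obtain ⟨a, ha0, ha⟩ : ∃ a : Fin (n + 1) → ℝ, a ≠ 0 ∧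
      ∀ k : Fin n, ∑ i, a i * ⟪b k, ι (G i)⟫_ℝ = 0 := by
    let L : (Fin (n + 1) → ℝ) →ₗ[ℝ] (Fin n → ℝ) :=
      { toFun := fun a k => ∑ i, a i * ⟪b k, ι (G i)⟫_ℝ
        map_add' := fun a a' => by
          funext k
          simp only [Pi.add_apply, add_mul, Finset.sum_add_distrib]
        map_smul' := fun c a => by
          funext k
          simp only [Pi.smul_apply, smul_eq_mul, RingHom.id_apply, Finset.mul_sum, mul_assoc] }
    have hker : LinearMap.ker L ≠ ⊥ := by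
      apply LinearMap.ker_ne_bot_of_finrank_lt
      simp
    obtain ⟨a, haL, ha0⟩ := Submodule.exists_mem_ne_zero_of_ne_bot hker
    exact ⟨a, ha0, fun k => congrFun (LinearMap.mem_ker.1 haL) k⟩
  obtain ⟨W, hW⟩ : ∃ W : VV Ω, W = ∑ i, a i • G i := ⟨_, rfl⟩
  have hιW : ι W = ∑ i, a i • ι (G i) := by
    rw [hW, map_sum]
    simp only [map_smul]
  have hw : ‖ι W‖ ^ 2 = ∑ i, a i ^ 2 * ∫ x, ψ i x ^ 2 ∂(mu Ω) := by
    rw [hιW, norm_sq_comb _ o1]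
    simp only [n1]
  have hWn : ‖W‖ ^ 2 = ∑ i, a i ^ 2 * ∫ x, ‖gradient (ψ i) x‖ ^ 2 ∂(mu Ω) := by
    rw [hW, norm_sq_comb _ o2]
    simp only [n2]
  have hwpos : 0 < ‖ι W‖ ^ 2 := by
    rw [hw]
    obtain ⟨i, hi⟩ : ∃ i, a i ≠ 0 := by
      by_contra hcon
      push Not at hcon
      exact ha0 (funext hcon)
    refine Finset.sum_pos' (fun j _ => mul_nonneg (sq_nonneg _) (hp j).le) ⟨i, Finset.mem_univ i, ?_⟩
    exact mul_pos (by positivity) (hp i)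
  have hle : ‖W‖ ^ 2 ≤ C * ((n : ℝ) + 1) ^ (2 / (d : ℝ)) * ‖ι W‖ ^ 2 := by
    rw [hw, hWn, Finset.mul_sum]
    refine Finset.sum_le_sum fun i _ => ?_
    have h1 := hg i
    push_cast at h1
    calc a i ^ 2 * ∫ x, ‖gradient (ψ i) x‖ ^ 2 ∂(mu Ω)
        ≤ a i ^ 2 * (C * ((n : ℝ) + 1) ^ (2 / (d : ℝ)) * ∫ x, ψ i x ^ 2 ∂(mu Ω)) :=
          mul_le_mul_of_nonneg_left h1 (sq_nonneg _)
      _ = _ := by ring
  -- Parseval
  have hrel : ∀ k, ⟪e k, W⟫_ℝ = om k * ⟪b k, ι W⟫_ℝ := by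
    intro k
    rw [hS.rel k W, ← mul_assoc, mul_inv_cancel₀ (hS.pos k).ne', one_mul]
  have hz : ∀ k, k < n → ⟪b k, ι W⟫_ℝ = 0 := by
    intro k hk
    rw [hιW, inner_sum]
    simp only [inner_smul_right]
    exact ha ⟨k, hk⟩
  have hp1 := b.hasSum_inner_mul_inner (ι W) (ι W)
  have hp2 := e.hasSum_inner_mul_inner W W
  have hp3 : om n ^ 2 * ‖ι W‖ ^ 2 ≤ ‖W‖ ^ 2 := by
    rw [← real_inner_self_eq_norm_sq, ← real_inner_self_eq_norm_sq]
    refine hasSum_le (fun k => ?_) (hp1.mul_left (om n ^ 2)) hp2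
    have h1 : ⟪W, e k⟫_ℝ = om k * ⟪b k, ι W⟫_ℝ := by rw [real_inner_comm, hrel]
    have h2 : ⟪ι W, b k⟫_ℝ = ⟪b k, ι W⟫_ℝ := real_inner_comm _ _
    rw [h1, hrel, h2]
    rcases lt_or_ge k n with hk | hk
    · rw [hz k hk]
      simp
    · have h3 : om n ≤ om k := hS.mono hk
      have h4 : om n ^ 2 ≤ om k ^ 2 := pow_le_pow_left₀ (hS.pos n).le h3 2
      calc om n ^ 2 * (⟪b k, ι W⟫_ℝ * ⟪b k, ι W⟫_ℝ)
          ≤ om k ^ 2 * (⟪b k, ι W⟫_ℝ * ⟪b k, ι W⟫_ℝ) :=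
            mul_le_mul_of_nonneg_right h4 (mul_self_nonneg _)
        _ = _ := by ring
  have hfin : om n ^ 2 ≤ C * ((n : ℝ) + 1) ^ (2 / (d : ℝ)) :=
    le_of_mul_le_mul_right (hp3.trans hle) hwpos
  have hn1 : (0 : ℝ) ≤ (n : ℝ) + 1 := by positivity
  have hsq : (Real.sqrt C * ((n : ℝ) + 1) ^ (1 / (d : ℝ))) ^ 2 =
      C * ((n : ℝ) + 1) ^ (2 / (d : ℝ)) := by
    rw [mul_pow, Real.sq_sqrt hC.le, ← Real.rpow_natCast (((n : ℝ) + 1) ^ (1 / (d : ℝ))) 2,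
      ← Real.rpow_mul hn1]
    congr 2
    push_cast
    ring
  rw [← hsq] at hfin
  exact (le_abs_self _).trans (abs_le_of_sq_le_sq hfin (by positivity))

end

end Pool.Agent.BEL.H41
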