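import Pool.Agent.BEL.StmtsE

/-!
# Squad BEL, row ENI: the energy inequality of the limit
-/

namespace Pool.Agent.BEL.H41

open MeasureTheory Filter Topology Set
open scoped InnerProductSpace ENNReal NNReal

noncomputable section

theorem gf_mul_self (a al y : ℝ) (hal : 0 < al) :
    gf a al y * y = a * |y| ^ (al + 2) := by
  unfold gf
  have h1 : |y| ^ (al + 2) = |y| ^ al * (y * y) := by
    rw [Real.rpow_add_of_nonneg (abs_nonneg y) hal.le (by norm_num), Real.rpow_two, sq_abs]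
    ring
  rw [h1]
  ring

theorem ofReal_split (A B : ℝ) (hA : 0 ≤ A) (hAB : A ≤ B) :
    ENNReal.ofReal A + 2 * ENNReal.ofReal ((B - A) / 2) = ENNReal.ofReal B := by
  rw [← ENNReal.ofReal_ofNat 2, ← ENNReal.ofReal_mul (by norm_num),
    ← ENNReal.ofReal_add hA (by linarith)]
  congr 1
  ring

theorem eni (hGrq : GrqStmt) (hFlp : FlpStmt) (hPrs : PrsStmt) (hGlp : GlpStmt)
    (hNem : NemStmt) : EniStmt := by
  intro X _ μ _ a al κ b om W Z S ha hal hW hlim V s t hs hst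
  obtain ⟨gq1, gq2, gq3, gq4, gq5, gq6, gq7, gq8⟩ := hGrq (Lp ℝ 2 μ) κ b om W hW
  obtain ⟨gl1, gl2, gl3, gl4, gl5, gl6, gl7, gl8, -⟩ := hGlp a al ha hal
  have nn : ∀ n : ℕ, (0 : ℝ) ≤ n := fun n => Nat.cast_nonneg n
  have hN : ∀ n : ℕ, (∀ v w : Lp ℝ 2 μ, ⟪nem μ (gl a al n) v, w⟫_ℝ =
      ∫ x, gl a al n (v x) * w x ∂μ) ∧
      (∀ v w : Lp ℝ 2 μ, Integrable (fun x => gl a al n (v x) * w x) μ) ∧
      (∀ v w : Lp ℝ 2 μ, 0 ≤ ⟪nem μ (gl a al n) v - nem μ (gl a al n) w, v - w⟫_ℝ) := by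
    intro n
    obtain ⟨-, -, -, h4, h5, h6⟩ := hNem X μ (gl a al n) _ (gl2 n (nn n)) (gl4 n)
    exact ⟨h4, h5, h6 (gl3 n (nn n))⟩
  have hL : ∀ n : ℕ, LipschitzWith (Real.toNNReal (a * (al + 1) * (n : ℝ) ^ al))
      (nem μ (gl a al n)) := fun n => (hNem X μ (gl a al n) _ (gl2 n (nn n)) (gl4 n)).2.1
  have h0 : ∀ n : ℕ, nem μ (gl a al n) 0 = 0 := fun n =>
    (hNem X μ (gl a al n) _ (gl2 n (nn n)) (gl4 n)).2.2.1
  obtain ⟨pr1, pr2, pr3, -⟩ := hPrs (Lp ℝ 2 μ) κ b om W (fun n => nem μ (gl a al n)) Z S hW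
    (fun n => ⟨_, hL n⟩) (fun n x y => (hN n).2.2 x y) h0 hlim
  have hF : ∀ n : ℕ, _ := fun n : ℕ => hFlp (Lp ℝ 2 μ) κ b om W (nem μ (gl a al n)) _ hW (hL n)
    (hN n).2.2 (h0 n) V V (Z n V) (Z n V) (hlim.fl n V) (hlim.fl n V)
  -- the quadratic functionals
  obtain ⟨q, hq⟩ : ∃ q : ℕ → Lp ℝ 2 μ → ℝ, ∀ k v, q k v = ⟪nem μ (gl a al k) v, v⟫_ℝ :=
    ⟨_, fun _ _ => rfl⟩
  have qc : ∀ k, Continuous (q k) := by
    intro k
    have h : q k = fun v => ⟪nem μ (gl a al k) v, v⟫_ℝ := funext fun v => hq k v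
    rw [h]
    exact (hL k).continuous.inner continuous_id
  have qi : ∀ k v, q k v = ∫ x, gl a al k (v x) * v x ∂μ := fun k v => by
    rw [hq, (hN k).1]
  have q0 : ∀ k v, 0 ≤ q k v := fun k v => by
    rw [qi]
    exact integral_nonneg fun x => gl5 k _ (nn k)
  have qm : ∀ k n : ℕ, k ≤ n → ∀ v, q k v ≤ q n v := by
    intro k n hkn v
    rw [qi, qi]
    exact integral_mono ((hN k).2.1 v v) ((hN n).2.1 v v)
      fun x => gl6 k n (v x) (nn k) (by exact_mod_cast hkn)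
  have qb : ∀ k v, |q k v| ≤ (Real.toNNReal (a * (al + 1) * (k : ℝ) ^ al) : ℝ) * ‖v‖ ^ 2 := by
    intro k v
    rw [hq]
    refine (abs_real_inner_le_norm _ _).trans ?_
    have h := (hL k).dist_le_mul v 0
    rw [h0, dist_zero_right, dist_zero_right] at h
    calc ‖nem μ (gl a al k) v‖ * ‖v‖
        ≤ ((Real.toNNReal (a * (al + 1) * (k : ℝ) ^ al) : ℝ) * ‖v‖) * ‖v‖ :=
          mul_le_mul_of_nonneg_right h (norm_nonneg _)
      _ = _ := by ring
  -- pointwise convergence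
  have hpt : ∀ r, 0 ≤ r → Tendsto (fun n => W r (Z n V r)) atTop (𝓝 (S r V)) := fun r hr =>
    (hlim.lim V r).tendsto_at ⟨hr, le_rfl⟩
  -- the truncated inequality
  have hk : ∀ k : ℕ, 2 * ∫ r in s..t, q k (P2 (S r V)) ≤ ‖S s V‖ ^ 2 - ‖S t V‖ ^ 2 := by
    intro k
    have h1 : ∀ n ≥ k, 2 * ∫ r in s..t, q k (P2 (W r (Z n V r))) ≤
        ‖W s (Z n V s)‖ ^ 2 - ‖W t (Z n V t)‖ ^ 2 := by
      intro n hn
      obtain ⟨f1, f2, f3, f4, f5⟩ := hF n
      rw [gq3, gq3, f5 s t]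
      have h2 : ∫ r in s..t, q k (P2 (W r (Z n V r))) ≤
          ∫ r in s..t, q n (P2 (W r (Z n V r))) :=
        intervalIntegral.integral_mono_on hst (((qc k).comp f1).intervalIntegrable _ _)
          (((qc n).comp f1).intervalIntegrable _ _) fun r _ => qm k n hn _
      have h3 : ∫ r in s..t, q n (P2 (W r (Z n V r))) = ∫ r in s..t,
          ⟪nem μ (gl a al n) (P2 (W r (Z n V r))), P2 (W r (Z n V r))⟫_ℝ :=
        intervalIntegral.integral_congr fun r _ => hq n _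
      rw [← h3]
      linarith
    have h2 : Tendsto (fun n => 2 * ∫ r in s..t, q k (P2 (W r (Z n V r)))) atTop
        (𝓝 (2 * ∫ r in s..t, q k (P2 (S r V)))) := by
      refine Tendsto.const_mul _ ?_
      refine intervalIntegral.tendsto_integral_filter_of_dominated_convergence
        (fun _ => (Real.toNNReal (a * (al + 1) * (k : ℝ) ^ al) : ℝ) *
          (‖(P2 : KK (Lp ℝ 2 μ) →L[ℝ] Lp ℝ 2 μ)‖ * ‖V‖) ^ 2) ?_ ?_ ?_ ?_
      · refine Filter.Eventually.of_forall fun n => ?_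
        exact (((qc k).comp (hF n).1).aestronglyMeasurable)
      · refine Filter.Eventually.of_forall fun n => ?_
        refine Filter.Eventually.of_forall fun r hr => ?_
        rw [uIoc_of_le hst] at hr
        have hr0 : 0 ≤ r := hs.trans hr.1.le
        refine (qb k _).trans ?_
        refine mul_le_mul_of_nonneg_left ?_ (NNReal.coe_nonneg _)
        refine pow_le_pow_left₀ (norm_nonneg _) ?_ 2
        refine (ContinuousLinearMap.le_opNorm _ _).trans ?_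
        refine mul_le_mul_of_nonneg_left ?_ (norm_nonneg _)
        rw [gq3]
        have h := (hF n).2.2.1 0 r hr0
        rwa [(hlim.fl n V).z0] at h
      · exact intervalIntegrable_const
      · refine Filter.Eventually.of_forall fun r hr => ?_
        rw [uIoc_of_le hst] at hr
        have hr0 : 0 ≤ r := hs.trans hr.1.le
        exact (((qc k).comp (P2 : KK (Lp ℝ 2 μ) →L[ℝ] Lp ℝ 2 μ).continuous).tendsto _).comp
          (hpt r hr0)
    have h3 : Tendsto (fun n => ‖W s (Z n V s)‖ ^ 2 - ‖W t (Z n V t)‖ ^ 2) atTop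
        (𝓝 (‖S s V‖ ^ 2 - ‖S t V‖ ^ 2)) :=
      (((hpt s hs).norm.pow 2)).sub ((hpt t (hs.trans hst)).norm.pow 2)
    exact le_of_tendsto_of_tendsto h2 h3 (Filter.eventually_atTop.2 ⟨k, h1⟩)
  -- continuity in `r`
  have hcont : ∀ k, ContinuousOn (fun r => q k (P2 (S r V))) (Icc s t) := by
    intro k
    refine ((qc k).comp (P2 : KK (Lp ℝ 2 μ) →L[ℝ] Lp ℝ 2 μ).continuous).comp_continuousOn ?_
    exact (pr2 V).mono fun r hr => hs.trans hr.1
  -- lintegrals
  have hin : ∀ (k : ℕ) (v : Lp ℝ 2 μ), ENNReal.ofReal (q k v) =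
      ∫⁻ x, ENNReal.ofReal (gl a al k (v x) * v x) ∂μ := by
    intro k v
    rw [qi]
    exact ofReal_integral_eq_lintegral_ofReal ((hN k).2.1 v v)
      (Filter.Eventually.of_forall fun x => gl5 k _ (nn k))
  have hout : ∀ k : ℕ, ∫⁻ r in Icc s t, ENNReal.ofReal (q k (P2 (S r V))) ≤
      ENNReal.ofReal ((‖S s V‖ ^ 2 - ‖S t V‖ ^ 2) / 2) := by
    intro k
    have h1 : ∫⁻ r in Icc s t, ENNReal.ofReal (q k (P2 (S r V))) =
        ENNReal.ofReal (∫ r in Icc s t, q k (P2 (S r V))) := by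
      symm
      exact ofReal_integral_eq_lintegral_ofReal (hcont k).integrableOn_Icc
        (Filter.Eventually.of_forall fun r => q0 k _)
    rw [h1]
    apply ENNReal.ofReal_le_ofReal
    rw [integral_Icc_eq_integral_Ioc, ← intervalIntegral.integral_of_le hst]
    have := hk k
    linarith
  have hsup1 : ∀ y : ℝ, ENNReal.ofReal (a * |y| ^ (al + 2)) =
      ⨆ k : ℕ, ENNReal.ofReal (gl a al k y * y) := by
    intro y
    apply le_antisymm
    · obtain ⟨k, hk⟩ := exists_nat_ge |y|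
      refine le_trans (le_of_eq ?_) (le_iSup _ k)
      rw [gl8 k y hk, gf_mul_self a al y hal]
    · refine iSup_le fun k => ENNReal.ofReal_le_ofReal ?_
      rw [← gf_mul_self a al y hal]
      have h1 := gl7 k y (nn k)
      have h2 : gl a al k y * y ≤ |gf a al y| * |y| := by
        refine (le_abs_self _).trans ?_
        rw [abs_mul]
        exact mul_le_mul_of_nonneg_right h1 (abs_nonneg y)
      refine h2.trans (le_of_eq ?_)
      rw [← abs_mul, gf_mul_self a al y hal]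
      exact abs_of_nonneg (mul_nonneg ha.le (Real.rpow_nonneg (abs_nonneg y) _))
  have hglm : ∀ k : ℕ, Measurable (gl a al k) := fun k => (gl2 k (nn k)).continuous.measurable
  have hsup2 : ∀ v : Lp ℝ 2 μ, ∫⁻ x, ENNReal.ofReal (a * |v x| ^ (al + 2)) ∂μ =
      ⨆ k : ℕ, ENNReal.ofReal (q k v) := by
    intro v
    have h1 : ∀ x, ENNReal.ofReal (a * |v x| ^ (al + 2)) =
        ⨆ k : ℕ, ENNReal.ofReal (gl a al k (v x) * v x) := fun x => hsup1 (v x)
    simp only [h1, hin]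
    refine lintegral_iSup' ?_ ?_
    · intro k
      have hv : AEMeasurable v μ := (Lp.aestronglyMeasurable v).aemeasurable
      exact (((hglm k).comp_aemeasurable hv).mul hv).ennreal_ofReal
    · refine Filter.Eventually.of_forall fun x => ?_
      intro k n hkn
      exact ENNReal.ofReal_le_ofReal (gl6 k n (v x) (nn k) (by exact_mod_cast hkn))
  have hsup3 : ∫⁻ r in Icc s t, ∫⁻ x, ENNReal.ofReal (a * |P2 (S r V) x| ^ (al + 2)) ∂μ ≤
      ENNReal.ofReal ((‖S s V‖ ^ 2 - ‖S t V‖ ^ 2) / 2) := by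
    simp only [hsup2]
    rw [lintegral_iSup' ?_ ?_]
    · exact iSup_le hout
    · intro k
      exact ((hcont k).aemeasurable measurableSet_Icc).ennreal_ofReal
    · refine Filter.Eventually.of_forall fun r => ?_
      intro k n hkn
      exact ENNReal.ofReal_le_ofReal (qm k n hkn _)
  have hfin : ENNReal.ofReal (2 * a) *
      ∫⁻ r in Icc s t, ∫⁻ x, ENNReal.ofReal (|P2 (S r V) x| ^ (al + 2)) ∂μ =
      2 * ∫⁻ r in Icc s t, ∫⁻ x, ENNReal.ofReal (a * |P2 (S r V) x| ^ (al + 2)) ∂μ := by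
    have h1 : ∀ r, ∫⁻ x, ENNReal.ofReal (a * |P2 (S r V) x| ^ (al + 2)) ∂μ =
        ENNReal.ofReal a * ∫⁻ x, ENNReal.ofReal (|P2 (S r V) x| ^ (al + 2)) ∂μ := by
      intro r
      rw [← lintegral_const_mul' _ _ ENNReal.ofReal_ne_top]
      refine lintegral_congr fun x => ?_
      rw [ENNReal.ofReal_mul ha.le]
    simp only [h1]
    rw [lintegral_const_mul' _ _ ENNReal.ofReal_ne_top, ENNReal.ofReal_mul (by norm_num)]
    rw [ENNReal.ofReal_ofNat, mul_assoc]
  rw [hfin]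
  have hdec : ‖S t V‖ ^ 2 ≤ ‖S s V‖ ^ 2 :=
    pow_le_pow_left₀ (norm_nonneg _) (pr3 V s t hs hst) 2
  calc ENNReal.ofReal (‖S t V‖ ^ 2) +
        2 * ∫⁻ r in Icc s t, ∫⁻ x, ENNReal.ofReal (a * |P2 (S r V) x| ^ (al + 2)) ∂μ
      ≤ ENNReal.ofReal (‖S t V‖ ^ 2) + 2 * ENNReal.ofReal ((‖S s V‖ ^ 2 - ‖S t V‖ ^ 2) / 2) := by
        gcongr
    _ = ENNReal.ofReal (‖S s V‖ ^ 2) := ofReal_split _ _ (sq_nonneg _) hdec

end

end Pool.Agent.BEL.H41
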