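import Pool.Agent.BEL.StmtsC

/-!
# Squad BEL, row EX1: moments with a weight
-/

namespace Pool.Agent.BEL.H41

open MeasureTheory Filter Topology Set
open scoped InnerProductSpace ENNReal

noncomputable section

theorem ex1 (hRad : RadStmt) (hPtb : PtbStmt) : Ex1Stmt := by
  intro p hp
  obtain ⟨C, hC, hR⟩ := hRad p hp
  refine ⟨C, hC, ?_⟩
  intro X _ μ _ κ b J A B r u ρ hA hA0 hB0 hu hin hρ hρi
  have hP := hPtb X μ κ b J A B r u hA hA0 hB0 hu hin
  have hAB : 0 ≤ A * B := mul_nonneg hA0 hB0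
  -- the sums are computed pointwise
  have hpt : ∀ᵐ x ∂μ, ∀ ε : Fin r → Bool,
      (∑ i, sg (ε i) • u i : Lp ℝ 2 μ) x = ∑ i, sg (ε i) * u i x := by
    rw [ae_all_iff]
    intro ε
    have h1 : ∀ s : Finset (Fin r), ∀ᵐ x ∂μ,
        (∑ i ∈ s, sg (ε i) • u i : Lp ℝ 2 μ) x = ∑ i ∈ s, sg (ε i) * u i x := by
      intro s
      induction s using Finset.induction_on with
      | empty =>
        rw [Finset.sum_empty]
        filter_upwards [Lp.coeFn_zero ℝ 2 μ] with x hx
        rw [hx, Finset.sum_empty]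
        rfl
      | insert i s hi ih =>
        rw [Finset.sum_insert hi]
        filter_upwards [ih, Lp.coeFn_add (sg (ε i) • u i) (∑ i ∈ s, sg (ε i) • u i),
          Lp.coeFn_smul (sg (ε i)) (u i)] with x h1 h2 h3
        rw [h2, Pi.add_apply, h1, h3, Finset.sum_insert hi]
        rfl
    exact h1 Finset.univ
  have hsg : ∀ c : Bool, |sg c| = 1 := by
    intro c
    unfold sg
    split_ifs <;> norm_num
  -- the bound
  have hbd : ∀ᵐ x ∂μ, ∀ ε : Fin r → Bool,
      |(∑ i, sg (ε i) • u i : Lp ℝ 2 μ) x| ^ p ≤ ((r : ℝ) * Real.sqrt (A * B)) ^ p := by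
    filter_upwards [hpt, hP] with x h1 h2 ε
    rw [h1]
    refine Real.rpow_le_rpow (abs_nonneg _) ?_ hp.le
    refine (Finset.abs_sum_le_sum_abs _ _).trans ?_
    have h3 : ∀ i : Fin r, |sg (ε i) * u i x| ≤ Real.sqrt (A * B) := by
      intro i
      rw [abs_mul, hsg, one_mul]
      apply Real.abs_le_sqrt
      refine le_trans ?_ h2
      exact Finset.single_le_sum (f := fun i => (u i x) ^ 2) (fun i _ => sq_nonneg _)
        (Finset.mem_univ i)
    refine (Finset.sum_le_sum fun i _ => h3 i).trans ?_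
    rw [Finset.sum_const, Finset.card_univ, Fintype.card_fin, nsmul_eq_mul]
  have hint : ∀ ε : Fin r → Bool,
      Integrable (fun x => ρ x * |(∑ i, sg (ε i) • u i : Lp ℝ 2 μ) x| ^ p) μ := by
    intro ε
    refine Integrable.mono' (hρi.mul_const (((r : ℝ) * Real.sqrt (A * B)) ^ p)) ?_ ?_
    · have h1 : AEMeasurable (fun x => |(∑ i, sg (ε i) • u i : Lp ℝ 2 μ) x| ^ p) μ := by
        have h2 := (Lp.aestronglyMeasurable (∑ i, sg (ε i) • u i : Lp ℝ 2 μ)).aemeasurable
        exact (measurable_norm.comp_aemeasurable h2).pow_const p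
      exact hρi.aestronglyMeasurable.mul h1.aestronglyMeasurable
    · filter_upwards [hρ, hbd] with x h1 h2
      rw [norm_mul, Real.norm_of_nonneg h1,
        Real.norm_of_nonneg (Real.rpow_nonneg (abs_nonneg _) p)]
      exact mul_le_mul_of_nonneg_left (h2 ε) h1
  have h1 : av (fun ε : Fin r → Bool => ∫ x, ρ x *
      |(∑ i, sg (ε i) • u i : Lp ℝ 2 μ) x| ^ p ∂μ) =
      ∫ x, ρ x * av (fun ε : Fin r → Bool =>
        |(∑ i, sg (ε i) • u i : Lp ℝ 2 μ) x| ^ p) ∂μ := by
    unfold av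
    rw [← integral_finsetSum _ fun ε _ => hint ε, ← integral_const_mul]
    congr 1
    funext x
    rw [← Finset.mul_sum]
    ring
  rw [h1, ← integral_const_mul]
  refine integral_mono_of_nonneg ?_ (hρi.const_mul _) ?_
  · filter_upwards [hρ] with x hx
    refine mul_nonneg hx ?_
    unfold av
    exact mul_nonneg (by positivity)
      (Finset.sum_nonneg fun ε _ => Real.rpow_nonneg (abs_nonneg _) p)
  · filter_upwards [hρ, hpt, hP] with x h2 h3 h4
    have h5 : av (fun ε : Fin r → Bool => |(∑ i, sg (ε i) • u i : Lp ℝ 2 μ) x| ^ p) ≤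
        C * (A * B) ^ (p / 2) := by
      have h6 : (fun ε : Fin r → Bool => |(∑ i, sg (ε i) • u i : Lp ℝ 2 μ) x| ^ p) =
          fun ε => |∑ i, sg (ε i) * u i x| ^ p := funext fun ε => by rw [h3]
      rw [h6]
      refine (hR r fun i => u i x).trans ?_
      refine mul_le_mul_of_nonneg_left ?_ hC.le
      exact Real.rpow_le_rpow (Finset.sum_nonneg fun i _ => sq_nonneg _) h4 (by positivity)
    calc ρ x * av (fun ε : Fin r → Bool => |(∑ i, sg (ε i) • u i : Lp ℝ 2 μ) x| ^ p)
        ≤ ρ x * (C * (A * B) ^ (p / 2)) := mul_le_mul_of_nonneg_left h5 h2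
      _ = C * (A * B) ^ (p / 2) * ρ x := by ring

end

end Pool.Agent.BEL.H41
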