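import Pool.Agent.BEL.StmtsC

/-!
# Squad BEL, row EX4: the leakage
-/

namespace Pool.Agent.BEL.H41

open MeasureTheory Filter Topology Set
open scoped InnerProductSpace ENNReal

noncomputable section

theorem ex4 (hRd2 : Rd2Stmt) (hEx2 : Ex2Stmt) (hMlp : MlpStmt) : Ex4Stmt := by
  intro X _ μ _ κ b J B M r u f hf hfM hB hu hin
  obtain ⟨-, -, -, -, -, T0, hT0⟩ := hMlp X μ f M hf hfM
  obtain ⟨T, hT⟩ : ∃ T : Lp ℝ 2 μ →L[ℝ] Lp ℝ 2 μ, ∀ v, T v = ml μ f v - PJ b J (ml μ f v) := by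
    refine ⟨T0 - (PJ b J).comp T0, fun v => ?_⟩
    rw [sub_apply, ContinuousLinearMap.comp_apply, hT0]
  have hlk : ∀ v, lk μ b J f v = ‖T v‖ ^ 2 := fun v => by
    unfold lk
    rw [hT]
  have h1 := hRd2 (Lp ℝ 2 μ) r (fun i => T (u i))
  have h2 := hEx2 (Lp ℝ 2 μ) κ b J B r u T hB hu hin
  have h3 : av (fun ε => lk μ b J f (∑ i, sg (ε i) • u i)) =
      av (fun ε => ‖∑ i, sg (ε i) • T (u i)‖ ^ 2) := by
    congr 1
    funext ε
    rw [hlk, map_sum]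
    simp only [map_smul]
  rw [h3, h1]
  simp only [hlk]
  exact h2

end

end Pool.Agent.BEL.H41
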