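import Pool.Agent.BEL.StmtsC
import Pool.Agent.Helper69_BEL.Pic

/-!
# Squad BEL, row FUN: the fundamental solution of a linear equation, Liouville's formula
-/

namespace Pool.Agent.BEL.H41

open MeasureTheory Filter Topology Set
open scoped InnerProductSpace ENNReal NNReal

noncomputable section

/-- Jacobi's formula (copy of `Pool/Agent/Helper3_MVS/DET.lean`) -/
theorem hasDerivAt_det {n : Type} [Fintype n] [DecidableEq n] {A : ℝ → Matrix n n ℝ}
    {A' : Matrix n n ℝ} {t : ℝ} (h : ∀ i j, HasDerivAt (fun s => A s i j) (A' i j) t) :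
    HasDerivAt (fun s => (A s).det) ((A t).adjugate * A').trace t := by
  have h1 : HasDerivAt (fun s => (A s).det)
      (∑ σ : Equiv.Perm n, ((Equiv.Perm.sign σ : ℤ) : ℝ) *
        ∑ i, (∏ j ∈ Finset.univ.erase i, A t (σ j) j) • A' (σ i) i) t := by
    simp only [Matrix.det_apply']
    refine HasDerivAt.fun_sum fun σ _ => ?_
    refine HasDerivAt.const_mul _ ?_
    exact HasDerivAt.fun_finsetProd fun i _ => h (σ i) i
  have h2 : (∑ σ : Equiv.Perm n, ((Equiv.Perm.sign σ : ℤ) : ℝ) *
        ∑ i, (∏ j ∈ Finset.univ.erase i, A t (σ j) j) • A' (σ i) i) =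
      ((A t).adjugate * A').trace := by
    have h3 : ∀ i, ((A t).adjugate * A') i i = ((A t).updateCol i (fun k => A' k i)).det := by
      intro i
      rw [← Matrix.cramer_apply, Matrix.cramer_eq_adjugate_mulVec]
      rfl
    rw [Matrix.trace]
    simp only [Matrix.diag_apply, h3]
    simp only [Matrix.det_apply', Finset.mul_sum]
    rw [Finset.sum_comm]
    refine Finset.sum_congr rfl fun i _ => Finset.sum_congr rfl fun σ _ => ?_
    rw [← Finset.prod_erase_mul _ _ (Finset.mem_univ i), Matrix.updateCol_self, smul_eq_mul]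
    congr 2
    refine Finset.prod_congr rfl fun j hj => ?_
    rw [Matrix.updateCol_ne (Finset.ne_of_mem_erase hj)]
  rw [← h2]
  exact h1

/-- a linear equation with continuous coefficient: linear solution operator -/
theorem lin_sol {E : Type} [NormedAddCommGroup E] [NormedSpace ℝ E] [CompleteSpace E]
    (B : ℝ → E →L[ℝ] E) (hB : Continuous B) :
    ∃ Φ : ℝ → E →ₗ[ℝ] E, (∀ x, Φ 0 x = x) ∧
      ∀ x t, HasDerivAt (fun t => Φ t x) (-(B t (Φ t x))) t := by
  obtain ⟨ℓ, hℓ⟩ : ∃ ℓ : ℝ → ℝ, ∀ t, ℓ t = 1 + ‖B t‖ := ⟨_, fun _ => rfl⟩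
  have hℓc : Continuous ℓ := by
    have : ℓ = fun t => 1 + ‖B t‖ := funext hℓ
    rw [this]
    exact continuous_const.add hB.norm
  have hℓ1 : ∀ t, 1 ≤ ℓ t := fun t => by
    rw [hℓ]
    linarith [norm_nonneg (B t)]
  obtain ⟨θ, hθ⟩ : ∃ θ : ℝ → ℝ, ∀ t, θ t = ∫ s in (0 : ℝ)..t, ℓ s := ⟨_, fun _ => rfl⟩
  have hθ0 : θ 0 = 0 := by rw [hθ, intervalIntegral.integral_same]
  have hθd : ∀ t, HasDerivAt θ (ℓ t) t := by
    intro t
    have h1 : θ = fun t => ∫ s in (0 : ℝ)..t, ℓ s := funext hθ
    rw [h1]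
    exact intervalIntegral.integral_hasDerivAt_right (hℓc.intervalIntegrable _ _)
      hℓc.aestronglyMeasurable.stronglyMeasurableAtFilter hℓc.continuousAt
  have hθm : ∀ s t, s ≤ t → t - s ≤ θ t - θ s := by
    intro s t hst
    have h1 : Monotone fun t => θ t - t := by
      refine monotone_of_deriv_nonneg ?_ ?_
      · intro t
        exact ((hθd t).sub (hasDerivAt_id t)).differentiableAt
      · intro t
        have h2 := ((hθd t).sub (hasDerivAt_id t)).deriv
        have h3 : deriv (fun t => θ t - t) t = ℓ t - 1 := h2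
        rw [h3]
        linarith [hℓ1 t]
    have h2 := h1 hst
    simp only at h2
    linarith
  have hmono : StrictMono θ := by
    intro s t hst
    have := hθm s t hst.le
    linarith
  have hθc : Continuous θ := continuous_iff_continuousAt.2 fun t => (hθd t).continuousAt
  have hsurj : Function.Surjective θ := by
    refine hθc.surjective ?_ ?_
    · refine tendsto_atTop_mono' atTop ?_ tendsto_id
      filter_upwards [eventually_ge_atTop 0] with t ht
      have := hθm 0 t ht
      rw [hθ0] at this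
      simpa using this
    · refine tendsto_atBot_mono' atBot ?_ tendsto_id
      filter_upwards [eventually_le_atBot 0] with t ht
      have := hθm t 0 ht
      rw [hθ0] at this
      simp only [id]
      linarith
  obtain ⟨σ, hσc, hσ⟩ : ∃ σ : ℝ → ℝ, Continuous σ ∧ ∀ t, σ (θ t) = t := by
    let e : ℝ ≃o ℝ := hmono.orderIsoOfSurjective θ hsurj
    exact ⟨e.symm, e.symm.continuous, fun t => e.symm_apply_apply t⟩
  obtain ⟨f, hf⟩ : ∃ f : ℝ → E → E, ∀ u x, f u x = -((ℓ (σ u))⁻¹ • B (σ u) x) :=
    ⟨_, fun _ _ => rfl⟩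
  have hfl : ∀ u, LipschitzWith 1 (f u) := by
    intro u
    refine LipschitzWith.of_dist_le_mul fun x y => ?_
    rw [hf, hf, dist_eq_norm, dist_eq_norm, NNReal.coe_one, one_mul]
    have h1 : -((ℓ (σ u))⁻¹ • B (σ u) x) - -((ℓ (σ u))⁻¹ • B (σ u) y) =
        -((ℓ (σ u))⁻¹ • B (σ u) (x - y)) := by
      rw [map_sub, smul_sub]
      abel
    have h0 : 0 < ℓ (σ u) := lt_of_lt_of_le one_pos (hℓ1 _)
    rw [h1, norm_neg, norm_smul, norm_inv, Real.norm_eq_abs, abs_of_pos h0, inv_mul_le_iff₀ h0]
    refine ((B (σ u)).le_opNorm _).trans ?_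
    refine mul_le_mul_of_nonneg_right ?_ (norm_nonneg _)
    rw [hℓ]
    linarith
  have hfc : ∀ x, Continuous fun u => f u x := by
    intro x
    have h1 : (fun u => f u x) = fun u => -((ℓ (σ u))⁻¹ • B (σ u) x) := funext fun u => hf u x
    rw [h1]
    refine (((hℓc.comp hσc).inv₀ fun u => ?_).smul ((hB.comp hσc).clm_apply continuous_const)).neg
    exact (lt_of_lt_of_le one_pos (hℓ1 _)).ne'
  choose α hα0 hα using fun x => H69.pic f 1 hfl hfc x
  have huniq : ∀ (p q : ℝ → E), (∀ u, HasDerivAt p (f u (p u)) u) →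
      (∀ u, HasDerivAt q (f u (q u)) u) → p 0 = q 0 → p = q := by
    intro p q hp hq h0
    exact ODE_solution_unique_univ (v := f) (s := fun _ => univ) (K := 1) (t₀ := 0)
      (fun t => (hfl t).lipschitzOnWith) (fun t => ⟨hp t, mem_univ _⟩)
      (fun t => ⟨hq t, mem_univ _⟩) h0
  have hadd : ∀ x y, α (x + y) = fun u => α x u + α y u := by
    intro x y
    refine huniq _ _ (hα (x + y)) (fun u => ?_) (by rw [hα0, hα0, hα0])
    have h1 := (hα x u).add (hα y u)
    have h2 : f u (α x u + α y u) = f u (α x u) + f u (α y u) := by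
      rw [hf, hf, hf, map_add, smul_add]
      abel
    rw [h2]
    exact h1
  have hsm : ∀ (c : ℝ) x, α (c • x) = fun u => c • α x u := by
    intro c x
    refine huniq _ _ (hα (c • x)) (fun u => ?_) (by rw [hα0, hα0])
    have h1 := (hα x u).const_smul c
    have h2 : f u (c • α x u) = c • f u (α x u) := by
      rw [hf, hf, map_smul, smul_neg, smul_comm]
    rw [h2]
    exact h1
  refine ⟨fun t => { toFun := fun x => α x (θ t)
                     map_add' := fun x y => by rw [hadd]
                     map_smul' := fun c x => by rw [hsm]; rfl }, ?_, ?_⟩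
  · intro x
    show α x (θ 0) = x
    rw [hθ0, hα0]
  · intro x t
    show HasDerivAt (fun t => α x (θ t)) (-(B t (α x (θ t)))) t
    have h1 := (hα x (θ t)).scomp t (hθd t)
    have h2 : ℓ t • f (θ t) (α x (θ t)) = -(B t (α x (θ t))) := by
      rw [hf, hσ, smul_neg, smul_smul, mul_inv_cancel₀ (lt_of_lt_of_le one_pos (hℓ1 t)).ne',
        one_smul]
    rw [h2] at h1
    exact h1

theorem le_of_sq_le_sq_aux {a b : ℝ} (_ : 0 ≤ a) (hb : 0 ≤ b) (h : a ^ 2 ≤ b ^ 2) : a ≤ b :=
  (le_abs_self a).trans (abs_le_of_sq_le_sq h hb)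

theorem fun_ : FunStmt := by
  intro E _ _ _ B hB hsym hpos
  have : CompleteSpace E := FiniteDimensional.complete ℝ E
  obtain ⟨Φ, hΦ0, hΦ⟩ := lin_sol B hB
  refine ⟨fun t => LinearMap.toContinuousLinearMap (Φ t), hΦ0, hΦ, ?_, ?_⟩
  · let b := Module.finBasis ℝ E
    have hcoord : ∀ i, Continuous (b.coord i) := fun i =>
      LinearMap.continuous_of_finiteDimensional _
    have hBm : ∀ t i j, LinearMap.toMatrix b b (B t : E →ₗ[ℝ] E) i j = b.coord i (B t (b j)) := by
      intro t i j
      rw [LinearMap.toMatrix_apply]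
      rfl
    have hder : ∀ t, HasDerivAt (fun t => LinearMap.det (Φ t))
        (-(LinearMap.trace ℝ E (B t : E →ₗ[ℝ] E)) * LinearMap.det (Φ t)) t := by
      intro t
      have h1 : ∀ i j, HasDerivAt (fun s => LinearMap.toMatrix b b (Φ s) i j)
          ((-(LinearMap.toMatrix b b (B t : E →ₗ[ℝ] E) * LinearMap.toMatrix b b (Φ t))) i j) t := by
        intro i j
        have h2 : ∀ s, LinearMap.toMatrix b b (Φ s) i j = b.coord i (Φ s (b j)) := by
          intro s
          rw [LinearMap.toMatrix_apply]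
          rfl
        simp only [h2]
        have h3 : (-(LinearMap.toMatrix b b (B t : E →ₗ[ℝ] E) * LinearMap.toMatrix b b (Φ t))) i j =
            b.coord i (-(B t (Φ t (b j)))) := by
          rw [Matrix.neg_apply, ← LinearMap.toMatrix_mul, LinearMap.toMatrix_apply, map_neg]
          rfl
        rw [h3]
        have h4 := (LinearMap.toContinuousLinearMap (b.coord i)).hasFDerivAt.comp_hasDerivAt t
          (hΦ (b j) t)
        exact h4
      have h2 := hasDerivAt_det h1
      have h3 : (fun t => LinearMap.det (Φ t)) =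
          fun s => (LinearMap.toMatrix b b (Φ s)).det := by
        funext s
        rw [LinearMap.det_toMatrix]
      rw [h3]
      have h4 : ((LinearMap.toMatrix b b (Φ t)).adjugate *
          -(LinearMap.toMatrix b b (B t : E →ₗ[ℝ] E) * LinearMap.toMatrix b b (Φ t))).trace =
          -(LinearMap.trace ℝ E (B t : E →ₗ[ℝ] E)) * LinearMap.det (Φ t) := by
        rw [Matrix.mul_neg, Matrix.trace_neg, Matrix.trace_mul_comm, Matrix.mul_assoc,
          Matrix.mul_adjugate, Matrix.mul_smul, Matrix.mul_one, Matrix.trace_smul, smul_eq_mul,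
          LinearMap.det_toMatrix, LinearMap.trace_eq_matrix_trace ℝ b]
        ring
      rw [← h4]
      exact h2
    have htr : Continuous fun t => LinearMap.trace ℝ E (B t : E →ₗ[ℝ] E) := by
      have h1 : (fun t => LinearMap.trace ℝ E (B t : E →ₗ[ℝ] E)) =
          fun t => ∑ i, b.coord i (B t (b i)) := by
        funext t
        rw [LinearMap.trace_eq_matrix_trace ℝ b, Matrix.trace]
        exact Finset.sum_congr rfl fun i _ => hBm t i i
      rw [h1]
      exact continuous_finsetSum _ fun i _ =>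
        (hcoord i).comp (hB.clm_apply continuous_const)
    obtain ⟨I, hI⟩ : ∃ I : ℝ → ℝ,
        ∀ t, I t = ∫ s in (0 : ℝ)..t, LinearMap.trace ℝ E (B s : E →ₗ[ℝ] E) := ⟨_, fun _ => rfl⟩
    have hId : ∀ t, HasDerivAt I (LinearMap.trace ℝ E (B t : E →ₗ[ℝ] E)) t := by
      intro t
      have h1 : I = fun t => ∫ s in (0 : ℝ)..t, LinearMap.trace ℝ E (B s : E →ₗ[ℝ] E) :=
        funext hI
      rw [h1]
      exact intervalIntegral.integral_hasDerivAt_right (htr.intervalIntegrable _ _)
        htr.aestronglyMeasurable.stronglyMeasurableAtFilter htr.continuousAt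
    have hconst : ∀ t, HasDerivAt (fun t => LinearMap.det (Φ t) * Real.exp (I t)) 0 t := by
      intro t
      have h1 := (hder t).mul (hId t).exp
      have h2 : -(LinearMap.trace ℝ E (B t : E →ₗ[ℝ] E)) * LinearMap.det (Φ t) * Real.exp (I t) +
          LinearMap.det (Φ t) * (Real.exp (I t) * LinearMap.trace ℝ E (B t : E →ₗ[ℝ] E)) = 0 := by
        ring
      rw [h2] at h1
      exact h1
    intro t
    have h1 := is_const_of_deriv_eq_zero (fun t => (hconst t).differentiableAt)
      (fun t => (hconst t).deriv) t 0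
    have h2 : I 0 = 0 := by rw [hI, intervalIntegral.integral_same]
    have h3 : Φ 0 = LinearMap.id := LinearMap.ext hΦ0
    simp only [h2, h3, Real.exp_zero, mul_one, LinearMap.det_id] at h1
    rw [← hI, Real.exp_neg]
    have h4 : LinearMap.det (Φ t) = (Real.exp (I t))⁻¹ := by
      field_simp
      exact h1
    exact h4
  · intro x s t hst
    show ‖Φ t x‖ ≤ ‖Φ s x‖
    have hd : ∀ t, HasDerivAt (fun t => ‖Φ t x‖ ^ 2) (2 * ⟪Φ t x, -(B t (Φ t x))⟫_ℝ) t :=
      fun t => (hΦ x t).norm_sq
    have h1 : Antitone fun t => ‖Φ t x‖ ^ 2 := by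
      refine antitone_of_deriv_nonpos (fun t => (hd t).differentiableAt) fun t => ?_
      rw [(hd t).deriv, inner_neg_right, real_inner_comm]
      linarith [hpos t (Φ t x)]
    exact le_of_sq_le_sq_aux (norm_nonneg _) (norm_nonneg _) (h1 hst)

end

end Pool.Agent.BEL.H41
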